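import Pool.Agent.Helper12.SG.GoalsE

/-!
# SGE-PLD (MP_a41896_nt): a place constant is bounded at the finite places by a natural number
-/

set_option autoImplicit false

namespace Pool.Agent.Helper13.SGB

open WeierstrassCurve Height Height.AdmissibleAbsValues NumberField
open Pool.Agent.Helper29.BL Pool.Agent.Helper92.Ru Pool.Agent.Helper42.SG

theorem na_natCast_le_one {K : Type} [Field K] [NumberField K] (v : AbsoluteValue K ℝ)
    (hv : v ∈ (nonarchAbsVal : Set (AbsoluteValue K ℝ))) (n : ℕ) : v (n : K) ≤ 1 :=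
  (AdmissibleAbsValues.isNonarchimedean v hv).apply_natCast_le_one

theorem exists_lt_one {K : Type} [Field K] [NumberField K] (v : AbsoluteValue K ℝ)
    (hv : v ∈ (nonarchAbsVal : Set (AbsoluteValue K ℝ))) : ∃ n : ℕ, 0 < n ∧ v (n : K) < 1 := by
  have hv' : IsFinitePlace v := hv
  obtain ⟨w, hw⟩ := hv'
  refine ⟨Ideal.absNorm w.asIdeal, ?_, ?_⟩
  · have h1 := NumberField.HeightOneSpectrum.one_lt_absNorm w
    omega
  · have h1 : ((Ideal.absNorm w.asIdeal : ℕ) : 𝓞 K) ∈ w.asIdeal := Ideal.absNorm_mem w.asIdeal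
    have h2 := (FinitePlace.norm_lt_one_iff_mem K w ((Ideal.absNorm w.asIdeal : ℕ) : 𝓞 K)).2 h1
    rw [map_natCast] at h2
    rw [← hw]
    exact h2

theorem exists_one {K : Type} [Field K] [NumberField K] (v : AbsoluteValue K ℝ)
    (hv : v ∈ (nonarchAbsVal : Set (AbsoluteValue K ℝ))) (b : ℝ) (hb : 1 ≤ b) :
    ∃ D : ℕ, 0 < D ∧ v (D : K) * b ≤ 1 := by
  obtain ⟨n, hn, hlt⟩ := exists_lt_one v hv
  have hb0 : 0 < b := lt_of_lt_of_le one_pos hb
  obtain ⟨k, hk⟩ := exists_pow_lt_of_lt_one (inv_pos.2 hb0) hlt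
  refine ⟨n ^ k, pow_pos hn k, ?_⟩
  rw [Nat.cast_pow, map_pow]
  calc v (n : K) ^ k * b ≤ b⁻¹ * b := mul_le_mul_of_nonneg_right hk.le hb0.le
    _ = 1 := inv_mul_cancel₀ hb0.ne'

theorem pld : Pool.Agent.Helper12.SG.PLD := by
  intro K _ _ B hB
  have hex : ∀ v : (nonarchAbsVal : Set (AbsoluteValue K ℝ)),
      ∃ D : ℕ, 0 < D ∧ v.val (D : K) * B v.val ≤ 1 :=
    fun v => exists_one v.val v.property _ (hB.one_le _)
  choose d hd0 hd using hex
  have hfin : (Function.support fun v : (nonarchAbsVal : Set (AbsoluteValue K ℝ)) =>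
      Real.log (B v.val)).Finite := hB.fin
  refine ⟨∏ v ∈ hfin.toFinset, d v, Finset.prod_pos fun v _ => hd0 v, ?_⟩
  intro v hv
  by_cases hmem : (⟨v, hv⟩ : (nonarchAbsVal : Set (AbsoluteValue K ℝ))) ∈ hfin.toFinset
  · classical
    rw [← Finset.mul_prod_erase _ _ hmem, Nat.cast_mul, map_mul]
    have h1 := hd ⟨v, hv⟩
    have h2 := na_natCast_le_one v hv
      (∏ x ∈ hfin.toFinset.erase (⟨v, hv⟩ : (nonarchAbsVal : Set (AbsoluteValue K ℝ))), d x)
    have h3 : 0 ≤ v ((d ⟨v, hv⟩ : ℕ) : K) * B v :=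
      mul_nonneg (v.nonneg _) (zero_le_one.trans (hB.one_le v))
    calc v ((d ⟨v, hv⟩ : ℕ) : K)
          * v ((∏ x ∈ hfin.toFinset.erase
            (⟨v, hv⟩ : (nonarchAbsVal : Set (AbsoluteValue K ℝ))), d x : ℕ) : K) * B v
        = (v ((d ⟨v, hv⟩ : ℕ) : K) * B v)
          * v ((∏ x ∈ hfin.toFinset.erase
            (⟨v, hv⟩ : (nonarchAbsVal : Set (AbsoluteValue K ℝ))), d x : ℕ) : K) := by ring
      _ ≤ (v ((d ⟨v, hv⟩ : ℕ) : K) * B v) * 1 := mul_le_mul_of_nonneg_left h2 h3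
      _ ≤ 1 := by rw [mul_one]; exact h1
  · have h1 : Real.log (B v) = 0 := by
      by_contra hne
      exact hmem (hfin.mem_toFinset.2 hne)
    have h2 : B v = 1 := by
      have h3 := hB.one_le v
      rw [← Real.exp_log (lt_of_lt_of_le one_pos h3), h1, Real.exp_zero]
    rw [h2, mul_one]
    exact na_natCast_le_one v hv _

end Pool.Agent.Helper13.SGB
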